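import Pool.Agent.QSX.StmtsV

/-!
# Squad QSX, rows CNR, CLW
-/

set_option autoImplicit false

namespace Pool.Agent.QSX.H68

open Matrix Finset Pool.Agent.QSX

theorem ud_zero (m : ℕ) : ud (0 : Fin m → ℝ) = 1 := by
  apply Units.ext
  show (diagonal fun i => Real.exp ((0 : Fin m → ℝ) i)) = 1
  rw [← diagonal_one]
  congr 1
  funext i
  rw [Pi.zero_apply, Real.exp_zero]

theorem span_entry {X : Dat} (hX : X.Split) (Ψ : Set hX.ι) (z : Matrix (Fin X.m) (Fin X.m) ℝ)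
    (hz : z ∈ Submodule.span ℝ (hX.e '' Ψ)) (i j : Fin X.m)
    (h : ∀ ν ∈ Ψ, hX.e ν i j = 0) : z i j = 0 := by
  induction hz using Submodule.span_induction with
  | mem x hx =>
    obtain ⟨ν, hν, rfl⟩ := hx
    exact h ν hν
  | zero => rfl
  | add x y _ _ hx hy => rw [Matrix.add_apply, hx, hy, add_zero]
  | smul c x _ hx => rw [Matrix.smul_apply, hx, smul_zero]

theorem span_mem {X : Dat} (hX : X.Split) (Ψ : Set hX.ι) (z : Matrix (Fin X.m) (Fin X.m) ℝ)
    (hz : z ∈ Submodule.span ℝ (hX.e '' Ψ)) : z ∈ X.n := by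
  rw [← hX.span_e]
  exact Submodule.span_mono (Set.image_subset_range _ _) hz

theorem wt_entry {X : Dat} (hX : X.Split) (ν : hX.ι) (a : X.b) (i j : Fin X.m)
    (h : hX.e ν i j ≠ 0) : (a : Fin X.m → ℝ) i - (a : Fin X.m → ℝ) j = hX.rt ν a := by
  have h1 := congrFun (congrFun (hX.wt ν a) i) j
  rw [Matrix.sub_apply, Matrix.diagonal_mul, Matrix.mul_diagonal, Matrix.smul_apply,
    smul_eq_mul] at h1
  have h2 : ((a : Fin X.m → ℝ) i - (a : Fin X.m → ℝ) j - hX.rt ν a) * hX.e ν i j = 0 := by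
    linear_combination h1
  rcases mul_eq_zero.mp h2 with h3 | h3
  · linarith
  · exact absurd h3 h

/-- the conjugate -/
noncomputable def cj {m : ℕ} (a : Fin m → ℝ) (z : Matrix (Fin m) (Fin m) ℝ) :
    Matrix (Fin m) (Fin m) ℝ :=
  (((ud a)⁻¹ : (Matrix (Fin m) (Fin m) ℝ)ˣ) : Matrix (Fin m) (Fin m) ℝ) * z *
    ((ud a : (Matrix (Fin m) (Fin m) ℝ)ˣ) : Matrix (Fin m) (Fin m) ℝ)

theorem cj_apply {m : ℕ} (a : Fin m → ℝ) (z : Matrix (Fin m) (Fin m) ℝ) (i j : Fin m) :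
    cj a z i j = Real.exp (-a i) * z i j * Real.exp (a j) := by
  show ((diagonal fun i => Real.exp (-a i)) * z * (diagonal fun i => Real.exp (a i))) i j = _
  rw [Matrix.mul_diagonal, Matrix.diagonal_mul]

theorem cj_su {m : ℕ} (a : Fin m → ℝ) (z : Matrix (Fin m) (Fin m) ℝ) (hz : SU z) :
    SU (cj a z) := by
  intro i j h
  rw [cj_apply, hz i j h, mul_zero, zero_mul]

theorem cj_ue (mcj : McjStmt) {m : ℕ} (a : Fin m → ℝ) (z : Matrix (Fin m) (Fin m) ℝ)
    (hz : SU z) : (ud a)⁻¹ * ue z * ud a = ue (cj a z) := by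
  have h1 := mcj ℝ m (ud a)⁻¹ z hz (by rw [inv_inv]; exact cj_su a z hz)
  rw [inv_inv] at h1
  exact h1.symm

theorem cnr (mcj : McjStmt) (pln : PlnStmt) : CnrStmt := by
  intro X hX Ψ z hz
  obtain ⟨K, hK, hpln⟩ := pln X.m
  have hsu : SU z := X.su z (span_mem hX Ψ z hz)
  refine ⟨K * (Real.log (1 + sz z) + 1), ?_⟩
  intro a ha
  rw [cj_ue mcj _ z hsu]
  have h1 := (hpln (cj (a : Fin X.m → ℝ) z) 0 (cj_su _ z hsu)).2.2
  rw [ud_zero, mul_one, norm_zero, zero_add] at h1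
  refine h1.trans ?_
  have h0 : 0 ≤ sz (cj (a : Fin X.m → ℝ) z) :=
    Finset.sum_nonneg fun i _ => Finset.sum_nonneg fun j _ => abs_nonneg _
  have h2 : sz (cj (a : Fin X.m → ℝ) z) ≤ sz z := by
    unfold sz
    refine Finset.sum_le_sum fun i _ => Finset.sum_le_sum fun j _ => ?_
    by_cases hij : ∃ ν ∈ Ψ, hX.e ν i j ≠ 0
    · obtain ⟨ν, hν, hne⟩ := hij
      have h3 := wt_entry hX ν a i j hne
      have h4 : 0 ≤ hX.rt ν a := ha ν hν
      rw [cj_apply, abs_mul, abs_mul, abs_of_pos (Real.exp_pos _), abs_of_pos (Real.exp_pos _)]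
      have h5 : Real.exp (-(a : Fin X.m → ℝ) i) * Real.exp ((a : Fin X.m → ℝ) j) ≤ 1 := by
        rw [← Real.exp_add]
        apply Real.exp_le_one_iff.mpr
        linarith
      calc Real.exp (-(a : Fin X.m → ℝ) i) * |z i j| * Real.exp ((a : Fin X.m → ℝ) j) =
          (Real.exp (-(a : Fin X.m → ℝ) i) * Real.exp ((a : Fin X.m → ℝ) j)) * |z i j| := by ring
        _ ≤ 1 * |z i j| := mul_le_mul_of_nonneg_right h5 (abs_nonneg _)
        _ = |z i j| := one_mul _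
    · push Not at hij
      have h3 := span_entry hX Ψ z hz i j hij
      rw [cj_apply, h3, mul_zero, zero_mul]
  have h3 : Real.log (1 + sz (cj (a : Fin X.m → ℝ) z)) ≤ Real.log (1 + sz z) :=
    Real.log_le_log (by linarith) (by linarith)
  exact mul_le_mul_of_nonneg_left (by linarith) hK.le

theorem clw (mcj : McjStmt) (low : LowStmt) : ClwStmt := by
  intro X hX l x hx
  have hmem : hX.e l ∈ X.n := by
    rw [← hX.span_e]
    exact Submodule.subset_span ⟨l, rfl⟩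
  have hsu : SU (hX.e l) := X.su _ hmem
  have hne : hX.e l ≠ 0 := hX.lin.ne_zero l
  obtain ⟨k, C, hk, hlow⟩ := low X.m (hX.e l) hsu hne
  refine ⟨k, C - k * Real.log |x|, hk, ?_⟩
  intro a
  have h1 : cj (a : Fin X.m → ℝ) (x • hX.e l) = (x * Real.exp (-(hX.rt l a))) • hX.e l := by
    ext i j
    rw [cj_apply, Matrix.smul_apply, Matrix.smul_apply, smul_eq_mul, smul_eq_mul]
    by_cases hij : hX.e l i j = 0
    · rw [hij]; ring
    · rw [← wt_entry hX l a i j hij, neg_sub, sub_eq_add_neg, Real.exp_add]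
      ring
  rw [cj_ue mcj _ _ (hsu.smul x), h1]
  have h2 := hlow (x * Real.exp (-(hX.rt l a))) (mul_ne_zero hx (Real.exp_pos _).ne')
  rw [abs_mul, abs_of_pos (Real.exp_pos _), Real.log_mul (abs_ne_zero.mpr hx)
    (Real.exp_pos _).ne', Real.log_exp] at h2
  nlinarith

end Pool.Agent.QSX.H68
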