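import Pool.Agent.QSX.StmtsV

/-!
# Squad QSX, row VRT
-/

set_option autoImplicit false

namespace Pool.Agent.QSX.H68

open Matrix Finset Pool.Agent.QSX

theorem UU.mul' {m : ℕ} {g h : Matrix (Fin m) (Fin m) ℝ} (hg : UU g) (hh : UU h) :
    UU (g * h) := by
  have h1 : g * h - 1 = (g - 1) * (h - 1) + (g - 1) + (h - 1) := by noncomm_ring
  show SU (g * h - 1)
  rw [h1]
  exact (SU.add (SU.add (SU.mul hg hh) hg) hh)

theorem uu_diff (lgm : LgmStmt) {m : ℕ} {y y' : Matrix (Fin m) (Fin m) ℝ} (hy : SU y)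
    (hy' : SU y') :
    UU (((ue y)⁻¹ * ue y' : (Matrix (Fin m) (Fin m) ℝ)ˣ) : Matrix (Fin m) (Fin m) ℝ) := by
  rw [Units.val_mul, ue_inv_val hy, ue_val hy']
  exact UU.mul' ((lgm ℝ m).1 _ hy.neg).1 ((lgm ℝ m).1 _ hy').1

section

variable {X Y : Dat} {hX : X.Split} (Φ : Flt X Y hX)

/-- the unipotent part of the flat -/
noncomputable def ph (n : (Matrix (Fin X.m) (Fin X.m) ℝ)ˣ) (s : ℕ) (a : X.b) :
    (Matrix (Fin Y.m) (Fin Y.m) ℝ)ˣ :=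
  ue ((Φ.F n s a).1 : Matrix (Fin Y.m) (Fin Y.m) ℝ)

theorem ph_mem (n : (Matrix (Fin X.m) (Fin X.m) ℝ)ˣ) (s : ℕ) (a : X.b) :
    ∃ y ∈ Y.n, ph Φ n s a = ue y := ⟨_, (Φ.F n s a).1.2, rfl⟩

theorem P_bd : ∃ M : ℝ, 0 ≤ M ∧ ∀ a : X.b, ∀ i, |Φ.P a i| ≤ M * ‖a‖ := by
  let P' := LinearMap.toContinuousLinearMap Φ.P
  refine ⟨‖P'‖, norm_nonneg P', fun a i => ?_⟩
  have h1 : ‖P' a‖ ≤ ‖P'‖ * ‖a‖ := P'.le_opNorm a
  have h2 : ‖Φ.P a i‖ ≤ ‖Φ.P a‖ := norm_le_pi_norm _ i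
  rw [Real.norm_eq_abs] at h2
  exact h2.trans h1

/-- the hypothesis of the near vertical lemma -/
theorem vert_hyp (ent : EntStmt) (n : (Matrix (Fin X.m) (Fin X.m) ℝ)ˣ) (hn : n ∈ hX.Gam) :
    ∀ ε > (0 : ℝ), ∀ᶠ s in (Φ.S.ω : Filter ℕ), ∀ a a' : X.b, ‖a‖ ≤ 1 → ‖a'‖ ≤ 1 →
      Φ.S.R s * ‖a - a'‖ ≤ 1 → ∀ i l, i < l →
      |(((ph Φ n s a)⁻¹ * ph Φ n s a' : (Matrix (Fin Y.m) (Fin Y.m) ℝ)ˣ) :
        Matrix _ _ ℝ) i l| ≤ Real.exp (Φ.S.R s * (Φ.P a i - Φ.P a l + ε)) := by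
  intro ε hε
  obtain ⟨M, hM, hPb⟩ := P_bd Φ
  filter_upwards [Φ.aff n hn (ε / 4) (by positivity),
    Φ.S.ev_R (2 / ε * (Φ.L + Φ.C + M))] with s h1 h2
  intro a a' ha ha' haa i l hil
  refine (ent Y (Φ.F n s a) (Φ.F n s a') i l).trans (Real.exp_le_exp.mpr ?_)
  have hR := Φ.one_le s
  have h3 := Φ.lip n hn s a a'
  have h4 : Φ.L * (Φ.S.R s * ‖a - a'‖) ≤ Φ.L * 1 :=
    mul_le_mul_of_nonneg_left haa (by linarith [Φ.one_le_L])
  have h5 := abs_le.mp (h1 a ha i)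
  have h6 := abs_le.mp (h1 a' ha' l)
  have h7 := hPb (a - a') l
  rw [map_sub, Pi.sub_apply] at h7
  have h8 : Φ.S.R s * |Φ.P a l - Φ.P a' l| ≤ M := by
    calc Φ.S.R s * |Φ.P a l - Φ.P a' l| ≤ Φ.S.R s * (M * ‖a - a'‖) :=
          mul_le_mul_of_nonneg_left h7 (by linarith)
      _ = M * (Φ.S.R s * ‖a - a'‖) := by ring
      _ ≤ M * 1 := mul_le_mul_of_nonneg_left haa hM
      _ = M := mul_one M
  have h9 : Φ.S.R s * (Φ.P a l - Φ.P a' l) ≤ M :=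
    (mul_le_mul_of_nonneg_left (le_abs_self _) (by linarith)).trans h8
  have h10 : Φ.L + Φ.C + M ≤ ε / 2 * Φ.S.R s := by
    have := mul_le_mul_of_nonneg_left h2 (by positivity : (0 : ℝ) ≤ ε / 2)
    calc Φ.L + Φ.C + M = ε / 2 * (2 / ε * (Φ.L + Φ.C + M)) := by field_simp
      _ ≤ _ := this
  nlinarith [h5.2, h6.1]

/-- two flats: the class condition where the length is bounded -/
theorem flat_cls (ent : EntStmt) (n n' : (Matrix (Fin X.m) (Fin X.m) ℝ)ˣ) (hn : n ∈ hX.Gam)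
    (hn' : n' ∈ hX.Gam) (B : Set X.b) (hB : ∀ a ∈ B, ‖a‖ ≤ 1) (C' : ℝ)
    (hlen : ∀ s, ∀ a ∈ B, len ((Y.mat (Φ.F n s a))⁻¹ * Y.mat (Φ.F n' s a)) ≤ C') :
    Φ.S.Cls Φ.P B (fun s a =>
      (((ph Φ n s a)⁻¹ * ph Φ n' s a : (Matrix (Fin Y.m) (Fin Y.m) ℝ)ˣ) : Matrix _ _ ℝ)) := by
  intro ε hε
  filter_upwards [Φ.aff n hn (ε / 4) (by positivity), Φ.aff n' hn' (ε / 4) (by positivity),
    Φ.S.ev_R (2 / ε * C')] with s h1 h1' h2
  intro a ha i l hil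
  refine (ent Y (Φ.F n s a) (Φ.F n' s a) i l).trans (Real.exp_le_exp.mpr ?_)
  have h3 := hlen s a ha
  have h5 := abs_le.mp (h1 a (hB a ha) i)
  have h6 := abs_le.mp (h1' a (hB a ha) l)
  have h10 : C' ≤ ε / 2 * Φ.S.R s := by
    have := mul_le_mul_of_nonneg_left h2 (by positivity : (0 : ℝ) ≤ ε / 2)
    calc C' = ε / 2 * (2 / ε * C') := by field_simp
      _ ≤ _ := this
  nlinarith [h5.2, h6.1]

end

theorem Cls.mono {S : Scale} {V : Type} {m : ℕ} {P : V → Fin m → ℝ} {B B' : Set V}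
    {g : ℕ → V → Matrix (Fin m) (Fin m) ℝ} (h : S.Cls P B g) (hB : B' ⊆ B) : S.Cls P B' g := by
  intro ε hε
  filter_upwards [h ε hε] with s hs
  intro a ha
  exact hs a (hB ha)

/-- product of three -/
theorem cls3 (clg : ClgStmt) (lgm : LgmStmt) (S : Scale) (V : Type) (m : ℕ) (P : V → Fin m → ℝ)
    (B : Set V) (u v w z : ℕ → V → Matrix (Fin m) (Fin m) ℝ)
    (hu : ∀ s a, SU (u s a)) (hv : ∀ s a, SU (v s a)) (hw : ∀ s a, SU (w s a))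
    (hz : ∀ s a, SU (z s a))
    (h1 : S.Cls P B fun s a => (((ue (u s a))⁻¹ * ue (v s a) : (Matrix (Fin m) (Fin m) ℝ)ˣ) :
      Matrix _ _ ℝ))
    (h2 : S.Cls P B fun s a => (((ue (u s a))⁻¹ * ue (w s a) : (Matrix (Fin m) (Fin m) ℝ)ˣ) :
      Matrix _ _ ℝ))
    (h3 : S.Cls P B fun s a => (((ue (w s a))⁻¹ * ue (z s a) : (Matrix (Fin m) (Fin m) ℝ)ˣ) :
      Matrix _ _ ℝ)) :
    S.Cls P B fun s a => (((ue (v s a))⁻¹ * ue (z s a) : (Matrix (Fin m) (Fin m) ℝ)ˣ) :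
      Matrix _ _ ℝ) := by
  have h4 := (clg S V m P B (fun s a => (ue (u s a))⁻¹ * ue (v s a))
    (fun s a => (ue (u s a))⁻¹ * ue (w s a)) (fun s a => uu_diff lgm (hu s a) (hv s a))
    (fun s a => uu_diff lgm (hu s a) (hw s a)) h1 h2).2
  have h5 : ∀ s a, ((ue (u s a))⁻¹ * ue (v s a))⁻¹ = (ue (v s a))⁻¹ * ue (u s a) := by
    intro s a
    rw [_root_.mul_inv_rev, inv_inv]
  simp only [h5] at h4
  have h6 := (clg S V m P B (fun s a => (ue (v s a))⁻¹ * ue (u s a))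
    (fun s a => (ue (u s a))⁻¹ * ue (w s a)) (fun s a => uu_diff lgm (hv s a) (hu s a))
    (fun s a => uu_diff lgm (hu s a) (hw s a)) h4 h2).1
  have h7 : ∀ s a, (ue (v s a))⁻¹ * ue (u s a) * ((ue (u s a))⁻¹ * ue (w s a)) =
      (ue (v s a))⁻¹ * ue (w s a) := by
    intro s a
    group
  simp only [h7] at h6
  have h8 := (clg S V m P B (fun s a => (ue (v s a))⁻¹ * ue (w s a))
    (fun s a => (ue (w s a))⁻¹ * ue (z s a)) (fun s a => uu_diff lgm (hv s a) (hw s a))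
    (fun s a => uu_diff lgm (hw s a) (hz s a)) h6 h3).1
  have h9 : ∀ s a, (ue (v s a))⁻¹ * ue (w s a) * ((ue (w s a))⁻¹ * ue (z s a)) =
      (ue (v s a))⁻¹ * ue (z s a) := by
    intro s a
    group
  simp only [h9] at h8
  exact h8

theorem vrt (nvl : NvlStmt) (clg : ClgStmt) (ent : EntStmt) (enu : EnuStmt) (cnr : CnrStmt)
    (clw : ClwStmt) (lgm : LgmStmt) : VrtStmt := by
  rintro X Y hX ⟨Φ⟩
  have hψ : ∀ n : (Matrix (Fin X.m) (Fin X.m) ℝ)ˣ, n ∈ hX.Gam →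
      ∃ y : ℕ → Matrix (Fin Y.m) (Fin Y.m) ℝ, (∀ s, y s ∈ Y.n) ∧
      Φ.S.Cls Φ.P {a : X.b | ‖a‖ ≤ 1} (fun s a =>
        (((ph Φ n s a)⁻¹ * ue (y s) : (Matrix (Fin Y.m) (Fin Y.m) ℝ)ˣ) : Matrix _ _ ℝ)) := by
    intro n hn
    obtain ⟨ψ, h1, h2⟩ := nvl Y Φ.S X.b Φ.P Φ.Pb Φ.one_le (ph Φ n) (ph_mem Φ n)
      (vert_hyp Φ ent n hn)
    choose y hy hy' using h1
    refine ⟨y, hy, ?_⟩
    have h3 : ∀ s, ψ s = ue (y s) := hy'
    simp only [h3] at h2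
    exact h2
  choose! y hy hcl using hψ
  have hFsu : ∀ (n : (Matrix (Fin X.m) (Fin X.m) ℝ)ˣ) (s : ℕ) (a : X.b),
      SU ((Φ.F n s a).1 : Matrix (Fin Y.m) (Fin Y.m) ℝ) :=
    fun n s a => Y.su _ (Φ.F n s a).1.2
  refine ⟨⟨Φ.S, Φ.P, Φ.Pb, fun n s => ue (y n s), ?_, ?_, ?_⟩⟩
  · intro n hn s
    exact ⟨_, hy n hn s, rfl⟩
  · intro n hn n' hn' Ψ z hz hnz
    obtain ⟨B, hB⟩ := cnr X hX Ψ z hz
    have h1 := flat_cls Φ ent n n' hn hn' ({a | ‖a‖ ≤ 1} ∩ hX.dual Ψ) (fun a ha => ha.1)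
      (Φ.L * B + Φ.C) (by
        intro s a ha
        refine (Φ.up n hn n' hn' s a).trans ?_
        have h2 : Φ.S.R s • a ∈ hX.dual Ψ := by
          intro ν hν
          rw [map_smul, smul_eq_mul]
          exact mul_nonneg (by linarith [Φ.one_le s]) (ha.2 ν hν)
        have h3 := hB _ h2
        have h4 : n⁻¹ * n' = ue z := by rw [hnz]; group
        rw [h4]
        have h5 := mul_le_mul_of_nonneg_left h3 (by linarith [Φ.one_le_L] : (0 : ℝ) ≤ Φ.L)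
        exact add_le_add h5 le_rfl)
    have h2 := cls3 clg lgm Φ.S X.b Y.m Φ.P ({a | ‖a‖ ≤ 1} ∩ hX.dual Ψ)
      (fun s a => ((Φ.F n s a).1 : Matrix (Fin Y.m) (Fin Y.m) ℝ)) (fun s _ => y n s)
      (fun s a => ((Φ.F n' s a).1 : Matrix (Fin Y.m) (Fin Y.m) ℝ)) (fun s _ => y n' s)
      (hFsu n) (fun s _ => Y.su _ (hy n hn s)) (hFsu n') (fun s _ => Y.su _ (hy n' hn' s))
      (Cls.mono (hcl n hn) Set.inter_subset_left) h1
      (Cls.mono (hcl n' hn') Set.inter_subset_left)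
    exact h2
  · intro n hn l x hx a ha hneg hcon
    have hxr : (x : ℝ) ≠ 0 := by exact_mod_cast hx
    have hn' : n * ue ((x : ℝ) • hX.e l) ∈ hX.Gam :=
      hX.Gam.mul_mem hn (Subgroup.subset_closure ⟨l, x, rfl⟩)
    set n' := n * ue ((x : ℝ) • hX.e l) with hn'def
    have hsub : ({a} : Set X.b) ⊆ {a | ‖a‖ ≤ 1} := by
      intro b hb
      rw [Set.mem_singleton_iff] at hb
      rw [hb]
      exact ha
    have hcl1 := Cls.mono (hcl n hn) hsub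
    have hcl2 := Cls.mono (hcl n' hn') hsub
    -- `ψ(n)⁻¹ ψ(n')`
    have hcon' : Φ.S.Cls Φ.P {a} (fun s (_ : X.b) =>
      (((ue (y n s))⁻¹ * ue (y n' s) : (Matrix (Fin Y.m) (Fin Y.m) ℝ)ˣ) : Matrix _ _ ℝ)) := hcon
    -- invert the first
    have hinv : ∀ k, k ∈ hX.Gam → Φ.S.Cls Φ.P {a} (fun s b =>
        (((ue (y k s))⁻¹ * ph Φ k s b : (Matrix (Fin Y.m) (Fin Y.m) ℝ)ˣ) : Matrix _ _ ℝ)) := by
      intro k hk
      have h1 := (clg Φ.S X.b Y.m Φ.P {a} (fun s b => (ph Φ k s b)⁻¹ * ue (y k s))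
        (fun s b => (ph Φ k s b)⁻¹ * ue (y k s))
        (fun s b => uu_diff lgm (hFsu k s b) (Y.su _ (hy k hk s)))
        (fun s b => uu_diff lgm (hFsu k s b) (Y.su _ (hy k hk s)))
        (Cls.mono (hcl k hk) hsub) (Cls.mono (hcl k hk) hsub)).2
      have h2 : ∀ s b, ((ph Φ k s b)⁻¹ * ue (y k s))⁻¹ = (ue (y k s))⁻¹ * ph Φ k s b := by
        intro s b
        rw [_root_.mul_inv_rev, inv_inv]
      simp only [h2] at h1
      exact h1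
    have hfl := cls3 clg lgm Φ.S X.b Y.m Φ.P {a}
      (fun s _ => y n s)
      (fun s b => ((Φ.F n s b).1 : Matrix (Fin Y.m) (Fin Y.m) ℝ))
      (fun s _ => y n' s)
      (fun s b => ((Φ.F n' s b).1 : Matrix (Fin Y.m) (Fin Y.m) ℝ))
      (fun s _ => Y.su _ (hy n hn s)) (hFsu n) (fun s _ => Y.su _ (hy n' hn' s)) (hFsu n')
      (hinv n hn) hcon' (hinv n' hn')
    obtain ⟨k, C', hk, hclw⟩ := clw X hX l x hxr
    obtain ⟨K, hK, henu⟩ := enu Y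
    have hL := Φ.one_le_L
    have hLp : 0 < Φ.L := by linarith
    have hr : 0 < -(hX.rt l a) := by linarith
    set r := -(hX.rt l a) with hrdef
    set ε := k * r / (2 * Φ.L * (1 + 5 * K)) with hεdef
    have hε : 0 < ε := by positivity
    have hev := (hfl ε hε).and ((Φ.aff n hn ε hε).and ((Φ.aff n' hn' ε hε).and
      ((Φ.dn n hn n' hn' ε hε).and (Φ.S.ev_R ((K + Φ.C + C' / Φ.L + 1) / (k * r / (2 * Φ.L)))))))
    obtain ⟨s, h1, h2, h3, h4, h5⟩ := hev.exists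
    have hR := Φ.one_le s
    have hRp : 0 < Φ.S.R s := by linarith
    have h6 := henu (Φ.F n s a) (Φ.F n' s a) (3 * ε * Φ.S.R s) (2 * ε * Φ.S.R s) (by positivity)
      (by positivity) (by
        intro i
        have h7 := abs_le.mp (h2 a ha i)
        have h8 := abs_le.mp (h3 a ha i)
        rw [abs_le]
        constructor <;> linarith [h7.1, h7.2, h8.1, h8.2]) (by
        intro i j hij
        have h7 := abs_le.mp (h2 a ha i)
        have h8 := abs_le.mp (h2 a ha j)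
        refine (h1 a rfl i j hij).trans (Real.exp_le_exp.mpr ?_)
        linarith [h7.1, h7.2, h8.1, h8.2])
    have h7 := h4 a ha
    have h8 := hclw (Φ.S.R s • a)
    have h9 : n⁻¹ * n' = ue ((x : ℝ) • hX.e l) := by rw [hn'def]; group
    rw [h9] at h7
    rw [map_smul, smul_eq_mul] at h8
    have h10 : len ((ud (((Φ.S.R s • a : X.b)) : Fin X.m → ℝ))⁻¹ * ue ((x : ℝ) • hX.e l) *
        ud (((Φ.S.R s • a : X.b)) : Fin X.m → ℝ)) =
      len ((ud (Φ.S.R s • (a : Fin X.m → ℝ)))⁻¹ * ue ((x : ℝ) • hX.e l) *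
        ud (Φ.S.R s • (a : Fin X.m → ℝ))) := rfl
    rw [h10] at h8
    have h11 := div_le_div_of_nonneg_right h8 hLp.le
    have h12 : -(k * (Φ.S.R s * hX.rt l a)) - C' = Φ.S.R s * (k * r) - C' := by
      rw [hrdef]; ring
    rw [h12] at h11
    have h13 : (Φ.S.R s * (k * r) - C') / Φ.L - Φ.C - ε * Φ.S.R s ≤
        K * (1 + 3 * ε * Φ.S.R s + 2 * ε * Φ.S.R s) := by linarith
    have h14 : (Φ.S.R s * (k * r) - C') / Φ.L = Φ.S.R s * (k * r / Φ.L) - C' / Φ.L := by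
      field_simp
    rw [h14] at h13
    have h15 : ε * (1 + 5 * K) = k * r / (2 * Φ.L) := by
      rw [hεdef]; field_simp
    have h16 : k * r / Φ.L = 2 * (k * r / (2 * Φ.L)) := by field_simp
    rw [h16] at h13
    have h17 : 0 < k * r / (2 * Φ.L) := by positivity
    rw [div_le_iff₀ h17] at h5
    nlinarith

end Pool.Agent.QSX.H68
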